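import Pool.Agent.W622.BK.Stm

set_option autoImplicit false

namespace Pool.Agent.W853.BK

open Module Pool.Agent.W622.BK

universe u

theorem t_KIL : Pool.Agent.W622.BK.S_KIL.{u} := by
  intro hALT k _ E _ _ R X u n
  induction n with
  | zero =>
    intro ω hR hω h
    refine ⟨hω, ?_⟩
    show one k E ω u = 0
    unfold one
    rw [LinearMap.comp_apply, h, map_zero]
  | succ n ih =>
    intro ω hR hω h
    refine ⟨fun e => ?_, hω.2⟩
    refine ih (cur k E ω e) hR (hω.1 e) ?_
    rw [(hALT k E R X n ω hR hω).2 e u, h, map_zero, LinearMap.zero_apply, neg_zero]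

end Pool.Agent.W853.BK
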